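import Mathlib
import Pool.Agent.N205.RT.Van
import Pool.Agent.N205.SG.Count

/-!
# Parshin's conjecture on motivic cohomology for products of almost all abelian varieties of every
Newton stratum with all schemes

Let `g i` (`i` in a finite set `I`) be positive integers, `B` any number and `d` a number such that
either `d ≤ 2`, or `d ≤ g i` and `g i` is three or at least five, for all `i` (`DimsU`).  By Honda and
Tate the irreducible polynomials in `weilPolys (p ^ a) g` correspond to the isogeny classes of the
simple abelian varieties over the field with `q = p ^ a` elements whose field `ℚ (π)` has degree
`2 g`; the characteristic polynomial of the Frobenius is a power of the polynomial (the polynomial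
itself if `a = 1` or if the abelian variety is ordinary).

Let `S i` be a **stratum** (`IsStratum p a (g i) t (S i)`), for instance the set of the Weil
polynomials of degree `2 g i` whose Newton polygon is a given one, or lies on or above a given one,
or any set in between, or the set of the Weil polynomials of given `p`-rank. The parameter `t` may be
`a` if the `p`-rank is at least two, and any number `t ≤ a (1 - 2 λ) - 1` where `λ` is the first slope
(normalised so that the supersingular polygon has slope one half), see `StrataFacts`: so every
stratum except for the supersingular one is included as soon as `a (1 - 2 λ) ≥ 2`.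

There is a constant `C`, depending only on `g`, `d` and `B`, such that the following holds.

**(1)** For all families `f i` in `S i` with the exception of a proportion at most
`C (p ^ t) ^ (-1 / 6) log (p ^ t)`, the statement `ParshinForIndep (p ^ a) f` holds: for all `s > 0`,
`Q = q ^ s`, all abelian varieties `A` over the field `k` with `Q` elements, isogenous to products of
powers of abelian varieties coming from the field with `q` elements whose characteristic polynomials
are powers of the `f i`, and **all smooth projective `Z`** over `k`, of any dimension, or **all
schemes `Z`** of finite type (then the motivic cohomology is the one with compact supports), such that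

* no power `α ^ N`, `N > 0`, of a root `α` of one of the `f i` is a product of powers (with positive
  or negative exponents) of `q` and of roots of a nonzero rational polynomial `χ`, and
* `χ` annihilates the Frobenius endomorphism of `Z` on the rational motivic cohomology
  `H^i(A × Z, ℚ(n))` (`IsIndependent`); if the motive of `Z` is finite-dimensional in the sense of
  Kimura and O'Sullivan, for instance if `Z` is dominated by a product of curves, one can take for `χ` a
  power of the characteristic polynomial of the Frobenius on the `ℓ`-adic cohomology of `Z`, and more
  generally if `Z` has a stratification by open subsets of such varieties with complements of the same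
  kind (by the localisation sequences the products of the polynomials `χ` do it):

* `H^i(A × Z, ℚ(n))` is the direct sum of groups `D t × H^(i - 2 c t)(Z, ℚ(n - c t))` with finitely many
  products `D t` of `c t` divisors on `A`, which depend only on `A`;
* **`H^i(A × Z, ℤ(n))` is torsion if and only if `H^(i - 2 k)(Z, ℤ(n - k))` is torsion for
  `0 ≤ k ≤ dim A`**, for each `i` and `n`; so **the assertion of `P^n` holds for `A × Z` if and only if
  the assertions of `P^(n - k)`, `0 ≤ k ≤ dim A`, hold for `Z`**;
* in the same way, for arbitrary schemes `Z`: `H_c^i(A × Z, ℚ(n)) = 0` for all `i < 2 n` if and only if
  `H_c^i(Z, ℚ(n - k)) = 0` for all `i < 2 (n - k)` and all `0 ≤ k ≤ dim A`;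
* if `H^i(A × Z, ℤ(n))` is torsion then so is `H^i(X, ℤ(n))` for **all** smooth projective `X` with a
  surjective morphism from `A × Z` to `X`, and for all direct summands of the motive of `A × Z`.

No case of the conjectures of Tate, Beilinson or Parshin is assumed. The exceptional families do not
depend on `Z`, not even on its dimension, nor on `X`. (A group is torsion if and only if its tensor
product with `ℚ` is zero; the formal statement is about the groups with rational coefficients.)

**(2)** Let `χ₀` be any nonzero rational polynomial of degree at most `B`, for instance the
characteristic polynomial of Frobenius on the whole cohomology of a variety `Z₀` with total Betti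
number at most `B`. With the exception of a proportion at most `C (p ^ t) ^ (-1 / 6) log (p ^ t)` of the
families, **all** polynomials `χ` which are tame relative to `χ₀` are independent: this is the case if
the roots of `χ`, up to powers and up to a group of rank less than the `g i`, are products of rational
numbers, of roots of `χ₀` and of Weil numbers of degree less than `2 d` (`d ≥ 3`).

For example (`χ₀ = X - 1`, `Z` a product of curves of genus less than `d`): if the `g i` are three or at
least five and `d` is the minimum of the `g i`, then for almost all families the conjecture of Parshin
for everything dominated by `A × C₁ × ... × C_n` is reduced to the one for `C₁ × ... × C_n`; for `Z` a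
curve (of any genus, with `χ₀` its characteristic polynomial) it is proved, by the theorem of Harder.

The idea of the proof: by a sieve (helper521, helper484, and my modules SD, SG) almost all families in
a stratum are such that each pair `α`, `q / α` of roots can be exchanged by a Galois automorphism which
fixes all the other roots of all the `f i`. So a product of roots of the `f i` and of a root of `χ` can
be a power of `q` only if the roots of the `f i` cancel in pairs. By duality for the `D t` and
nilpotence (a theorem of Kimura for `A`) the motive of `A` is the sum of Tate twists, given by the
`D t`, and of a motive on which the Frobenius endomorphism of `A` has no eigenvalue which could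
contribute to the motivic cohomology of `A × Z`, since the Frobenius endomorphism of `A × Z` acts on
`H^i(A × Z, ℚ(n))` as `Q ^ n` (library `Y156.L`; the idea is due to Soule, Geisser and Kahn).
-/

set_option autoImplicit false

namespace Pool.Agent.Results.MP_de59b4_ag.EveryVariety

open Polynomial Pool.Agent.N205.SG

open Pool.Agent.N205.RT (ParshinForIndep)

/-- `StrataFacts`: the sets of the Weil polynomials with given Newton polygon, or with Newton
polygon on or above a given one, and the sets of those of given `p`-rank, are strata. -/
theorem result :
    (∀ {I : Type} [Fintype I] (g : I → ℕ) (_ : ∀ i, 0 < g i) (d : ℕ) (_ : DimsU g d) (B : ℕ),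
      ∃ C : ℝ, ∀ p a t : ℕ, p.Prime → 0 < a → 0 < t → ∀ S : I → Set ℤ[X],
        (∀ i, IsStratum p a (g i) t (S i)) →
        (∀ i, (S i).Finite ∧ (4 ^ g i ≤ p ^ t → (S i).Nonempty)) ∧
        ({f : I → ℤ[X] | (∀ i, f i ∈ S i) ∧ ¬ ParshinForIndep (p ^ a) f}.ncard : ℝ) ≤
          C * (Real.log ((p ^ t : ℕ) : ℝ) * ((p ^ t : ℕ) : ℝ) ^ (-(1 / 6) : ℝ)) *
            ∏ i, ((S i).ncard : ℝ) ∧
        ∀ χ₀ : ℚ[X], χ₀ ≠ 0 → χ₀.natDegree ≤ B →
          ({f : I → ℤ[X] | (∀ i, f i ∈ S i) ∧ ¬ TameIndep g d (p ^ a) χ₀ f}.ncard : ℝ) ≤
            C * (Real.log ((p ^ t : ℕ) : ℝ) * ((p ^ t : ℕ) : ℝ) ^ (-(1 / 6) : ℝ)) *
              ∏ i, ((S i).ncard : ℝ)) ∧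
    StrataFacts :=
  ⟨fun g hg d hd B => indep_unif g hg d hd B (fun q f => ParshinForIndep q f)
    fun _ hq x hx => Pool.Agent.N205.RT.parshin_indep g hg hq.one_lt x hx, strataFacts⟩

end Pool.Agent.Results.MP_de59b4_ag.EveryVariety
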