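import Pool.Agent.N882.UE.Par
import Pool.Agent.Q282.UZ.Sys
import Pool.Agent.Q193.LT.Prime

/-!
# MP_de59b4_ag: Parshin's conjecture and trilinear forms

`T : Compact k` are data of rational motivic cohomology with compact supports
`C X i n = H^i_c(X, ℚ(n))` of the schemes `X` over the finite field `k`, `IsCompact T` lists the known
properties which are used, and `FT True X` means that `X` is separated and of finite type over `k`.

`Par T X`: `H^i_c(X, ℚ(n)) = 0` for all `n` and all `i < 2 n`.

`LikeSpace T X D`: for `i ≤ 2 n` the groups `H^i_c(X, ℚ(n))` are zero for `(i, n) ≠ (2 D, D)`, and the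
dimension of `H^(2D)_c(X, ℚ(D))` is at most one (as for the affine space of dimension `D`).

`bilS t` is the closed subscheme of the affine space given by the bilinear equations
`∑ t_ijl x_i y_j = 0`, `l = 1, …, c`, and `hypS t` is the affine cubic hypersurface
`∑ t_ijl x_i y_j z_l = 1`; `sysS k E` is given by the equations `∑_{(i, j) ∈ E_l} x_i y_j = 0`, and
`tripS k H` is the hypersurface `∑_{(i, j, l) ∈ H} x_i y_j z_l = 1`.
-/

set_option autoImplicit false

open CategoryTheory AlgebraicGeometry Pool.Agent.Y116.UV Pool.Agent.N882.UE Pool.Agent.Q282.UK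
  Pool.Agent.Q282.UZ

namespace Pool.Agent.Results.MP_de59b4_ag.TrilinearHypersurfaces

/-- Parshin's conjecture over `k`: `H^i(X, ℚ(n)) = 0` for all smooth proper schemes `X` of pure
dimension `d` over `k`, all `n` and all `i < 2 n` (for `i > 2 n` these groups are zero). -/
def Parshin {k : Type} [Field k] (T : Compact k) : Prop :=
  ∀ (d : ℕ) (X : Sch k), SmoothOfRelativeDimension d X.hom → IsProper X.hom → Par T X

/-- `Par` for all separated schemes of finite type. -/
def AllSchemes {k : Type} [Field k] (T : Compact k) : Prop :=
  ∀ X : Sch k, FT True X → Par T X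

/-- `Par` for all systems of bilinear equations over `k`. -/
def Systems {k : Type} [Field k] (T : Compact k) : Prop :=
  ∀ (a b c : ℕ) (t : Fin a → Fin b → Fin c → k), Par T (bilS t)

/-- `LikeSpace` for all hypersurfaces `t(x, y, z) = 1`. -/
def Hypersurfaces {k : Type} [Field k] (T : Compact k) : Prop :=
  ∀ (a b c : ℕ) (t : Fin a → Fin b → Fin c → k), LikeSpace T (hypS t) ((a : ℤ) + b + c - 1)

/-- `Par` for all systems of bilinear equations with coefficients `1` and at most three terms in every
equation. -/
def ThreeTermSystems {k : Type} [Field k] (T : Compact k) : Prop :=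
  ∀ (a b c : ℕ) (E : Fin c → Finset (Fin a × Fin b)), (∀ l, (E l).card ≤ 3) → Par T (sysS k E)

/-- `LikeSpace` for all hypersurfaces `∑_{(i, j, l) ∈ H} x_i y_j z_l = 1`. -/
def TripleHypersurfaces {k : Type} [Field k] (T : Compact k) : Prop :=
  ∀ (a b c : ℕ) (H : Finset (Fin a × Fin b × Fin c)),
    LikeSpace T (tripS k H) ((a : ℤ) + b + c - 1)

/-- **Theorem.** Let `T` be rational motivic cohomology with compact supports of the schemes over the
finite field `k`. It is known that Parshin's conjecture over `k` implies the vanishing of
`H^i_c(X, ℚ(n))`, `i < 2 n`, for all separated schemes of finite type (`reduction`).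
(1) For every trilinear form `t`: `H^i_c(X, ℚ(n)) = 0` for `i < 2 n` and the scheme `X` given by the
bilinear equations `∑ t_ijl x_i y_j = 0` iff the smooth hypersurface `∑ t_ijl x_i y_j z_l = 1`, of
dimension `D = a + b + c - 1`, is `LikeSpace`.
(2) The following are equivalent: Parshin's conjecture over `k`; the vanishing for all separated schemes
of finite type; the vanishing for all systems of bilinear equations over `k`; `LikeSpace` for the smooth
hypersurfaces `t(x, y, z) = 1` of all trilinear forms `t`.
(3) If `k` is a prime field, the following are equivalent: Parshin's conjecture over `k`; the vanishing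
for the systems of bilinear equations with coefficients `1` and at most three terms in every equation;
`LikeSpace` for the smooth hypersurfaces `∑_{(i, j, l) ∈ H} x_i y_j z_l = 1` of the finite sets `H`.
(4) The hypersurfaces are smooth. -/
theorem result {k : Type} [Field k] [Finite k] (T : Compact k) (hT : IsCompact T)
    (reduction : Parshin T → AllSchemes T) :
    (∀ (a b c : ℕ) (t : Fin a → Fin b → Fin c → k),
      Par T (bilS t) ↔ LikeSpace T (hypS t) ((a : ℤ) + b + c - 1)) ∧
    [Parshin T, AllSchemes T, Systems T, Hypersurfaces T].TFAE ∧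
    ((Nat.card k).Prime → [Parshin T, ThreeTermSystems T, TripleHypersurfaces T].TFAE) ∧
    ∀ (a b c : ℕ) (t : Fin a → Fin b → Fin c → k), Smooth (hypS t).hom := by
  classical
  have hC := clo_par hT
  have hP : Parshin T ↔ ∀ X : Sch k, FT True X → Par T X := by
    refine ⟨reduction, fun h d X _ hX => h X ⟨?_, ?_, fun _ => ?_⟩⟩
    · infer_instance
    · infer_instance
    · infer_instance
  have key : ∀ (a b c : ℕ) (t : Fin a → Fin b → Fin c → k),
      Par T (bilS t) ↔ LikeSpace T (hypS t) ((a : ℤ) + b + c - 1) := fun a b c t => par_hyp hT t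
  refine ⟨key, ?_, fun hp => ?_, ?_⟩
  · tfae_have 1 ↔ 2 := hP
    tfae_have 2 → 4 := fun h a b c t => (key a b c t).mp (h _ (ft_aff True))
    tfae_have 4 → 3 := fun h a b c t => (key a b c t).mpr (h a b c t)
    tfae_have 3 → 2 := fun h X hX =>
      clo_universal (S := Set.univ) hC trivial trivial
        (fun a b c t _ => h a b c t) presents_univ X hX
    tfae_finish
  · have h12 := hP.trans (three_iff (short_presents (int_surj hp)) hC)
    tfae_have 1 ↔ 2 := h12
    tfae_have 3 → 1 := by
      intro h
      rw [hP]
      intro X hX
      refine clo_universal (S := {0, 1}) hC (Or.inl rfl) (Or.inr rfl) ?_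
        (Pool.Agent.Q193.LT.presents_frac (frac_of_prime hp)) X hX
      intro a b c t ht
      let H : Finset (Fin a × Fin b × Fin c) := Finset.univ.filter fun h => t h.1 h.2.1 h.2.2 = 1
      have h1 : t = fun i j l => if (i, j, l) ∈ H then (1 : k) else 0 := by
        funext i j l
        have hm : (i, j, l) ∈ H ↔ t i j l = 1 := by
          rw [Finset.mem_filter]
          exact ⟨fun h => h.2, fun h => ⟨Finset.mem_univ _, h⟩⟩
        by_cases h : t i j l = 1
        · rw [if_pos (hm.mpr h), h]
        · rw [if_neg fun h2 => h (hm.mp h2)]
          rcases ht i j l with h2 | h2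
          · exact h2
          · exact absurd h2 h
      have h2 := h a b c H
      unfold tripS Trip at h2
      rw [← tri_ind, ← h1] at h2
      exact (key a b c t).mpr h2
    tfae_have 1 → 3 := by
      intro h a b c H
      have h2 := (key a b c fun i j l => if (i, j, l) ∈ H then (1 : k) else 0).mp
        (hP.mp h _ (ft_aff True))
      unfold hypS Hyp at h2
      rw [tri_ind] at h2
      exact h2
    tfae_finish
  · intro a b c t
    exact Pool.Agent.Z125.UN.smooth_hypS t

end Pool.Agent.Results.MP_de59b4_ag.TrilinearHypersurfaces
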